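import Mathlib
import Pool.Agent.Q214.IS.Rec
import Pool.Agent.Q214.IS.Seq

/-!
MP_8013b9: there is a subgroup `H` of the circle `𝕋 = ℝ/ℤ` which is not `I⋆`-characterized for any
ideal `I` on `ω` and any sequence `a` of integers.
-/

namespace Pool.Agent.Results.MP_8013b9_lc.NotIStarCharacterized

open Filter Topology Cardinal Q214.IS
open Q214.RS (nn nn_nonneg nn_zero)

/-- An ideal on `ω` (all ideals contain the finite sets and are proper). -/
structure IsIdeal (I : Set (Set ℕ)) : Prop where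
  mono : ∀ A B, A ⊆ B → B ∈ I → A ∈ I
  union : ∀ A B, A ∈ I → B ∈ I → A ∪ B ∈ I
  finite : ∀ A : Set ℕ, A.Finite → A ∈ I
  proper : Set.univ ∉ I

/-- `I⋆-lim xₙ = η`: there is `S ∈ I` such that `(xₙ)_{n ∉ S}` converges to `η`. -/
def IStarLim (I : Set (Set ℕ)) (x : ℕ → UnitAddCircle) (η : UnitAddCircle) : Prop :=
  ∃ S ∈ I, Tendsto x (atTop ⊓ 𝓟 Sᶜ) (𝓝 η)

/-- `H⋆_a(I) = {x ∈ 𝕋 : I⋆-lim aₙ x = 0}` -/
def HStar (I : Set (Set ℕ)) (a : ℕ → ℤ) : Set UnitAddCircle :=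
  {x | IStarLim I (fun n => a n • x) 0}

theorem nn_eq_norm (x : ℝ) : ‖(x : UnitAddCircle)‖ = nn x := UnitAddCircle.norm_eq

theorem tendsto_iff (a : ℕ → ℤ) (S : Set ℕ) (y : ℝ) :
    Tendsto (fun n => a n • (y : UnitAddCircle)) (atTop ⊓ 𝓟 Sᶜ) (𝓝 0) ↔ Null a Sᶜ y := by
  rw [tendsto_zero_iff_norm_tendsto_zero, Metric.tendsto_nhds]
  unfold Null
  refine forall₂_congr fun ε _ => ?_
  rw [eventually_inf_principal, eventually_atTop]
  have h : ∀ n, dist ‖a n • (y : UnitAddCircle)‖ 0 = nn (a n * y) := by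
    intro n
    rw [Real.dist_eq, sub_zero, abs_norm, ← AddCircle.coe_zsmul, zsmul_eq_mul, nn_eq_norm]
  simp only [h]

/-- The key choice. -/
theorem key : ∃ H : Submodule ℚ ℝ, (1 : ℝ) ∈ H ∧ √2 ∈ H ∧
    ∀ b : ℕ → ℤ, Tendsto (fun n => nn (b n * √2)) atTop (𝓝 0) →
      ∃ x ∈ H, ∃ y ∉ H, ∀ B, Null b B x → Null b B y := by
  classical
  let ι : Type := (𝔠 : Cardinal.{0}).ord.ToType
  have hι : #ι = 𝔠 := mk_ord_toType 𝔠
  have hsmall : ∀ i : ι, #(Set.Iio i) < 𝔠 := fun i => by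
    have := mk_Iio_lt i (by simp [ι])
    rwa [hι] at this
  let D : Type := {b : ℕ → ℤ // Tendsto (fun n => nn (b n * √2)) atTop (𝓝 0)}
  have hD : #D ≤ #ι := by
    rw [hι]
    refine (mk_subtype_le _).trans ?_
    simp
  have _ : Nonempty D := ⟨⟨fun _ => 0, by simp [nn_zero]⟩⟩
  obtain ⟨j⟩ := Cardinal.le_def _ _ |>.1 hD
  let val : ι → D := Function.invFun j
  obtain ⟨x, y, hP, hy⟩ := rec_choice hsmall {1, √2}
    ((Set.Finite.lt_aleph0 (by simp)).trans aleph0_lt_continuum)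
    (fun i x y => ∀ B, Null (val i).1 B x → Null (val i).1 B y) (by
      intro i K hK hKc
      obtain ⟨t, ht0, ht1, ht2⟩ := exists_t (val i).2
      have hinj := ys_injective ht0 ht1
      -- a large family avoids a small set
      have hav : ∀ (f : Set ℕ → Set ℕ) (_ : Function.Injective f) (K : Submodule ℚ ℝ), #K < 𝔠 →
          ∃ W, ys t (f W) ∉ K := by
        intro f hf K hK
        by_contra hall
        push Not at hall
        have h1 : Function.Injective (fun W : Set ℕ => (⟨ys t (f W), hall W⟩ : K)) := by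
          intro W W' h
          exact hf (hinj (congrArg Subtype.val h))
        have h2 := mk_le_of_injective h1
        rw [show #(Set ℕ) = 𝔠 by simp] at h2
        exact absurd hK (not_lt.2 h2)
      obtain ⟨W, hW⟩ := hav (fun W => {n | n % 2 = 0 ∨ n / 2 ∈ W}) (by
        intro W W' h
        ext n
        have h1 := congrArg (fun s : Set ℕ => (2 * n + 1) ∈ s) h
        simp only [Set.mem_ofPred_eq, eq_iff_iff] at h1
        rw [show (2 * n + 1) / 2 = n by omega, show (2 * n + 1) % 2 = 1 by omega] at h1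
        simpa using h1) K hKc
      have hK2 : #(Submodule.span ℚ (insert (ys t {n | n % 2 = 0 ∨ n / 2 ∈ W}) (K : Set ℝ))) < 𝔠 :=
        mk_span_lt ((mk_insert_le).trans_lt
          (add_lt_of_lt aleph0_le_continuum hKc (one_lt_aleph0.trans aleph0_lt_continuum)))
      obtain ⟨V, hV⟩ := hav (fun V => {n | n % 2 = 0 ∧ n / 2 ∈ V}) (by
        intro W W' h
        ext n
        have h1 := congrArg (fun s : Set ℕ => (2 * n) ∈ s) h
        simp only [Set.mem_ofPred_eq, eq_iff_iff] at h1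
        rw [show (2 * n) / 2 = n by omega, show (2 * n) % 2 = 0 by omega] at h1
        simpa using h1) _ hK2
      exact ⟨_, _, ht2 _ _ (fun n hn => Or.inl hn.1), hW, hV⟩)
  refine ⟨Submodule.span ℚ ({1, √2} ∪ Set.range x), Submodule.subset_span (Or.inl (by simp)),
    Submodule.subset_span (Or.inl (by simp)), fun b hb => ?_⟩
  have h1 : val (j ⟨b, hb⟩) = ⟨b, hb⟩ := Function.leftInverse_invFun j.injective _
  have h2 := hP (j ⟨b, hb⟩)
  rw [h1] at h2
  exact ⟨x (j ⟨b, hb⟩), Submodule.subset_span (Or.inr ⟨_, rfl⟩), y (j ⟨b, hb⟩), hy _, h2⟩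

/-- **MP_8013b9, Q1: No.** There is a subgroup `H` of the circle such that `H ≠ H⋆_a(I)` for every
ideal `I` on `ω` and every sequence `a` of integers. -/
theorem result : ∃ H : AddSubgroup UnitAddCircle,
    ∀ (I : Set (Set ℕ)) (a : ℕ → ℤ), IsIdeal I → (H : Set UnitAddCircle) ≠ HStar I a := by
  classical
  obtain ⟨H, h1, h2, hH⟩ := key
  refine ⟨H.toAddSubgroup.map (QuotientAddGroup.mk' (AddSubgroup.zmultiples (1 : ℝ))), ?_⟩
  set H' := H.toAddSubgroup.map (QuotientAddGroup.mk' (AddSubgroup.zmultiples (1 : ℝ))) with hH'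
  have hmem : ∀ z : ℝ, (z : UnitAddCircle) ∈ H' ↔ z ∈ H := by
    intro z
    constructor
    · rintro ⟨w, hw, hwz⟩
      have h3 : ((w : ℝ) : UnitAddCircle) = (z : UnitAddCircle) := hwz
      rw [← sub_eq_zero, ← AddCircle.coe_sub, AddCircle.coe_eq_zero_iff] at h3
      obtain ⟨n, hn⟩ := h3
      have h4 : z = w - (n : ℚ) • (1 : ℝ) := by
        rw [zsmul_eq_mul] at hn
        rw [Rat.smul_def]
        push_cast
        linarith
      rw [h4]
      exact H.sub_mem hw (H.smul_mem _ h1)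
    · intro hz
      exact ⟨z, hz, rfl⟩
  intro I a hI hEq
  have hmem2 : ∀ z : ℝ, z ∈ H ↔ ∃ S ∈ I, Null a Sᶜ z := by
    intro z
    rw [← hmem z, ← SetLike.mem_coe, hEq]
    constructor
    · rintro ⟨S, hS, h⟩
      exact ⟨S, hS, (tendsto_iff a S z).1 h⟩
    · rintro ⟨S, hS, h⟩
      exact ⟨S, hS, (tendsto_iff a S z).2 h⟩
  obtain ⟨S₀, hS₀, h3⟩ := (hmem2 √2).1 h2
  let b : ℕ → ℤ := fun n => if n ∈ S₀ then 0 else a n
  have hb : Tendsto (fun n => nn (b n * √2)) atTop (𝓝 0) := by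
    rw [Metric.tendsto_atTop]
    intro ε hε
    obtain ⟨N, hN⟩ := h3 ε hε
    refine ⟨N, fun n hn => ?_⟩
    rw [Real.dist_eq, sub_zero, abs_of_nonneg (nn_nonneg _)]
    by_cases hS : n ∈ S₀
    · simp only [b, if_pos hS, Int.cast_zero, zero_mul, nn_zero]
      exact hε
    · simp only [b, if_neg hS]
      exact hN n hn hS
  obtain ⟨x, hx, y, hy, hxy⟩ := hH b hb
  obtain ⟨S₁, hS₁, h4⟩ := (hmem2 x).1 hx
  have hba : ∀ n, n ∈ (S₀ ∪ S₁)ᶜ → b n = a n := by
    intro n hn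
    simp only [b]
    rw [if_neg (fun h => hn (Or.inl h))]
  have h5 : Null b (S₀ ∪ S₁)ᶜ x := by
    intro ε hε
    obtain ⟨N, hN⟩ := h4 ε hε
    refine ⟨N, fun n hn hnS => ?_⟩
    rw [hba n hnS]
    exact hN n hn (fun h => hnS (Or.inr h))
  have h6 := hxy _ h5
  apply hy
  rw [hmem2 y]
  refine ⟨S₀ ∪ S₁, hI.union _ _ hS₀ hS₁, ?_⟩
  intro ε hε
  obtain ⟨N, hN⟩ := h6 ε hε
  refine ⟨N, fun n hn hnS => ?_⟩
  rw [← hba n hnS]
  exact hN n hn hnS

end Pool.Agent.Results.MP_8013b9_lc.NotIStarCharacterized
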